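import Pool.Agent.H66.ZK.Stm
import Pool.Agent.H66.TK.Mov

/-! # Project ZK, part SCA: the lines through `P` -/

set_option autoImplicit false

open Pool.Agent.Y720.MZ Pool.Agent.Q35.TT Pool.Agent.Q149.TT Pool.Agent.Q35.ZC Pool.Agent.H66.TK
open Pool.Agent.H66.ZK

namespace Pool.Agent.H29.ZK

variable {F : Type} [Field F]

theorem sec3 {α : Fin 3 → F} {β : Fin 4 → F} (e g : Fin 3 → F) (a0 a1 a2 b0 b1 b2 c : F)
    (hli : LinearIndependent F ![e, g]) (hc : c ≠ 0) (h0 : a0 ≠ 0 ∨ b0 ≠ 0) (h1 : a1 ≠ 0 ∨ b1 ≠ 0)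
    (h2 : a2 ≠ 0 ∨ b2 ≠ 0)
    (h : ∀ l m : F, cub α β (l * e 0 + m * g 0) ![l * e 1 + m * g 1, l * e 2 + m * g 2] =
      c * ((b0 * l - a0 * m) * (b1 * l - a1 * m) * (b2 * l - a2 * m))) :
    Sec α β ![a0 • e + b0 • g, a1 • e + b1 • g, a2 • e + b2 • g] := by
  refine ⟨e, g, ![a0, a1, a2], ![b0, b1, b2], c, hli, hc, ?_, ?_, ?_⟩
  · intro i
    fin_cases i
    · exact h0
    · exact h1
    · exact h2
  · intro i j
    fin_cases i <;> rfl
  · intro l m
    exact h l m

theorem sec_swap {α : Fin 3 → F} {β : Fin 4 → F} {x y z : Fin 3 → F} (h : Sec α β ![x, y, z]) :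
    Sec α β ![x, z, y] := by
  obtain ⟨e, g, a, b, c, hli, hc, hab, hv, hcub⟩ := h
  refine ⟨e, g, ![a 0, a 2, a 1], ![b 0, b 2, b 1], c, hli, hc, ?_, ?_, ?_⟩
  · intro i
    fin_cases i
    · exact hab 0
    · exact hab 2
    · exact hab 1
  · intro i j
    fin_cases i
    · exact hv 0 j
    · exact hv 2 j
    · exact hv 1 j
  · intro l m
    rw [hcub]
    simp only [Matrix.cons_val_zero, Matrix.cons_val_one, Matrix.cons_val]
    ring

theorem li_line (w t σ : F) : LinearIndependent F ![![w, 1, t], ![σ, 0, 1]] := by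
  rw [LinearIndependent.pair_iff]
  intro a b h
  have h1 := congrFun h 1
  have h2 := congrFun h 2
  simp at h1 h2
  subst h1
  simpa using h2

theorem li_inf (w t : F) : LinearIndependent F ![![w, 1, t], ![1, 0, 0]] := by
  rw [LinearIndependent.pair_iff]
  intro a b h
  have h0 := congrFun h 0
  have h1 := congrFun h 1
  simp at h0 h1
  subst h1
  simpa using h0

/-- the cubic form on the line through `P` -/
theorem cub_hom (α : Fin 3 → F) (β : Fin 4 → F) (w t σ l m : F) :
    cub α β (l * w + m * σ) ![l, l * t + m] = l ^ 3 * cub α β w ![1, t] +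
      l ^ 2 * m * (cw α w ![1, t] * σ + c1 α β w ![1, t]) + l * m ^ 2 * mm α β w ![1, t] σ 1 +
      m ^ 3 * nn α β σ 1 := by
  simp only [cub, q2, q3, cw, c1, mm, nn, Matrix.cons_val_zero, Matrix.cons_val_one]
  ring

theorem cub_homI (α : Fin 3 → F) (β : Fin 4 → F) (w t l m : F) :
    cub α β (l * w + m) ![l, l * t] = l ^ 3 * cub α β w ![1, t] +
      l ^ 2 * m * cw α w ![1, t] + l * m ^ 2 * (3 * w) + m ^ 3 := by
  simp only [cub, q2, q3, cw, Matrix.cons_val_zero, Matrix.cons_val_one]
  ring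

theorem sl_spec {α : Fin 3 → F} {β : Fin 4 → F} {w t : F} (h : cw α w ![1, t] ≠ 0) (τ : F) :
    cw α w ![1, t] * (sl α β w t + τ) + c1 α β w ![1, t] = cw α w ![1, t] * τ := by
  unfold sl
  field_simp
  ring

theorem sl_spec0 {α : Fin 3 → F} {β : Fin 4 → F} {w t : F} (h : cw α w ![1, t] ≠ 0) :
    cw α w ![1, t] * sl α β w t + c1 α β w ![1, t] = 0 := by
  have := sl_spec (β := β) h 0
  simpa using this

/-- the quartic -/
theorem qp_eval {α : Fin 3 → F} {β : Fin 4 → F} {w t : F} (h : cw α w ![1, t] ≠ 0) (τ : F) :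
    (qp (qt α β w t)).eval τ = mm α β w ![1, t] (sl α β w t + τ) 1 ^ 2 -
      4 * (cw α w ![1, t] * τ) * nn α β (sl α β w t + τ) 1 := by
  rw [← sl_spec (β := β) h τ, ← bq_gq']
  have h0 := bq_gq α β w t (sl α β w t) (sl_spec0 h)
  have e1 : (qp (qt α β w t)).eval τ = mm α β w ![1, t] (sl α β w t) 1 ^ 2 +
      tay (gq α β w ![1, t]) (sl α β w t) 0 * τ + tay (gq α β w ![1, t]) (sl α β w t) 1 * τ ^ 2 +
      tay (gq α β w ![1, t]) (sl α β w t) 2 * τ ^ 3 + tay (gq α β w ![1, t]) (sl α β w t) 3 * τ ^ 4 := by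
    simp [Pool.Agent.Q35.ZC.qp, qt]
  rw [e1, ← h0]
  simp only [bq, tay, Matrix.cons_val_zero, Matrix.cons_val_one, Matrix.cons_val]
  ring

theorem sca : S_SCA := by
  intro F _ _ α β w t h0 hcw hm
  have hm' : mm α β w ![1, t] (sl α β w t) 1 ≠ 0 := hm
  have tang : Sec α β ![p0 w t, p0 w t, p1 α β w t] := by
    have := sec3 (α := α) (β := β) ![w, 1, t] ![sl α β w t, 0, 1] 1 1 (nn α β (sl α β w t) 1) 0 0
      (-(qt α β w t).1) (-1) (li_line w t _) (by norm_num) (Or.inl one_ne_zero)
      (Or.inl one_ne_zero) (Or.inr (neg_ne_zero.mpr hm)) (by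
        intro l m
        have := cub_hom α β w t (sl α β w t) l m
        rw [h0, sl_spec0 hcw] at this
        simp only [Matrix.cons_val_zero, Matrix.cons_val_one, Matrix.cons_val, mul_one, mul_zero,
          add_zero]
        rw [this]
        simp only [qt]
        ring)
    simpa [p0, p1] using this
  refine ⟨tang, ?_, ?_⟩
  · intro τ Y hY
    by_cases hτ : τ = 0
    · subst hτ
      have hY' : Y ^ 2 = (qt α β w t).1 ^ 2 := by
        rw [hY, qp_eval hcw]
        simp [qt]
      have hne : -(qt α β w t).1 ≠ (qt α β w t).1 := by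
        intro h
        have h2 : (2 : F) * (qt α β w t).1 = 0 := by linear_combination -h
        rcases mul_eq_zero.mp h2 with h3 | h3
        · exact two_ne_zero h3
        · exact hm h3
      have e0 : ph α β w t 0 (qt α β w t).1 = p0 w t := by
        simp [ph]
      have e1 : ph α β w t 0 (-(qt α β w t).1) = p1 α β w t := by
        simp [ph, hne]
      rcases sq_eq_sq_iff_eq_or_eq_neg.mp hY' with h | h
      · rw [h, e0, e1]
        exact tang
      · rw [h, neg_neg, e0, e1]
        exact sec_swap tang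
    · have hk : -2 * (cw α w ![1, t] * τ) ≠ 0 := by
        exact mul_ne_zero (by norm_num) (mul_ne_zero hcw hτ)
      have hk' : 4 * (cw α w ![1, t] * τ) ≠ 0 := by
        exact mul_ne_zero (by norm_num) (mul_ne_zero hcw hτ)
      rw [qp_eval hcw] at hY
      have := sec3 (α := α) (β := β) ![w, 1, t] ![sl α β w t + τ, 0, 1] 1 (dn α β w t τ Y)
        (dn α β w t τ (-Y)) 0 (-2 * (cw α w ![1, t] * τ)) (-2 * (cw α w ![1, t] * τ))
        (-(4 * (cw α w ![1, t] * τ))⁻¹) (li_line w t _) (neg_ne_zero.mpr (inv_ne_zero hk'))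
        (Or.inl one_ne_zero) (Or.inr hk) (Or.inr hk) (by
          intro l m
          have := cub_hom α β w t (sl α β w t + τ) l m
          rw [h0, sl_spec hcw] at this
          simp only [Matrix.cons_val_zero, Matrix.cons_val_one, Matrix.cons_val, mul_one, mul_zero,
            add_zero]
          rw [this]
          unfold dn
          generalize mm α β w ![1, t] (sl α β w t + τ) 1 = A at hY ⊢
          generalize nn α β (sl α β w t + τ) 1 = B at hY ⊢
          generalize cw α w ![1, t] * τ = D at hY hk' ⊢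
          have hD : (4 * D)⁻¹ * (4 * D) = 1 := inv_mul_cancel₀ hk'
          generalize (4 * D)⁻¹ = E at hD ⊢
          linear_combination (l ^ 2 * m * D + l * m ^ 2 * A + m ^ 3 * B) * (-hD) +
            (E * m ^ 3) * hY)
      have e1 : ph α β w t τ Y = dn α β w t τ Y • ![w, 1, t] +
          (-2 * (cw α w ![1, t] * τ)) • ![sl α β w t + τ, 0, 1] := by
        simp [ph, hτ]
      have e2 : ph α β w t τ (-Y) = dn α β w t τ (-Y) • ![w, 1, t] +
          (-2 * (cw α w ![1, t] * τ)) • ![sl α β w t + τ, 0, 1] := by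
        simp [ph, hτ]
      rw [e1, e2]
      have e0 : p0 w t = (1 : F) • ![w, 1, t] + (0 : F) • ![sl α β w t + τ, 0, 1] := by
        simp [p0]
      rw [e0]
      exact this
  · intro c hc
    have hc' : c ^ 2 = (3 * w) ^ 2 - 4 * cw α w ![1, t] := by
      rw [hc]
      exact gq4 α β w t
    have := sec3 (α := α) (β := β) ![w, 1, t] ![1, 0, 0] 1 2 2 0 (c - 3 * w) (-c - 3 * w)
      (-(1 / 4)) (li_inf w t) (by norm_num) (Or.inl one_ne_zero) (Or.inl two_ne_zero)
      (Or.inl two_ne_zero) (by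
        intro l m
        have := cub_homI α β w t l m
        rw [h0] at this
        simp only [Matrix.cons_val_zero, Matrix.cons_val_one, Matrix.cons_val, mul_one, mul_zero,
          add_zero]
        rw [this]
        linear_combination (1 / 4 * m * l ^ 2) * hc')
    have e0 : p0 w t = (1 : F) • ![w, 1, t] + (0 : F) • ![1, 0, 0] := by
      simp [p0]
    have e1 : ∀ c : F, pf w t c = (2 : F) • ![w, 1, t] + (c - 3 * w) • ![1, 0, 0] := by
      intro c
      simp only [pf, Matrix.smul_cons, smul_eq_mul, Matrix.smul_empty, Matrix.cons_add_cons,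
        Matrix.empty_add_empty, mul_one, mul_zero, add_zero]
      congr 1
      ring
    rw [e0, e1, e1]
    exact this

end Pool.Agent.H29.ZK
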